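import Pool.Agent.PVD.StmtsL

/-! MP_e25c73_gt, block L, row AKX. -/

set_option autoImplicit false
open MeasureTheory

namespace Pool.Agent.PVD.L.H32

/-- A bounded measurable function is integrable on `[0,1]`. -/
theorem ibd {h : ℝ → ℝ} (hm : Measurable h) {B : ℝ} (hB : ∀ t, 0 < t → t ≤ 1 → |h t| ≤ B) :
    IntervalIntegrable h volume 0 1 := by
  rw [intervalIntegrable_iff_integrableOn_Ioc_of_le zero_le_one]
  refine Measure.integrableOn_of_bounded (M := B) (by simp) hm.aestronglyMeasurable ?_
  rw [ae_restrict_iff' measurableSet_Ioc]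
  exact Filter.Eventually.of_forall fun t ht => by
    rw [Real.norm_eq_abs]
    exact hB t ht.1 ht.2

theorem abs_int_le {h : ℝ → ℝ} {B : ℝ} (hB : ∀ t, 0 < t → t ≤ 1 → |h t| ≤ B) :
    |∫ t in (0:ℝ)..1, h t| ≤ B := by
  have h1 := intervalIntegral.norm_integral_le_of_norm_le_const (a := (0:ℝ)) (b := 1) (f := h)
    (C := B) (fun t ht => by
      rw [Set.uIoc_of_le zero_le_one] at ht
      rw [Real.norm_eq_abs]
      exact hB t ht.1 ht.2)
  rw [Real.norm_eq_abs] at h1
  simpa using h1

theorem akx : AkxStmt := by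
  intro e m q f hf hq0 hq1
  have hfm : Measurable f := hf.cont.measurable
  have hpos : ∀ t, 0 < t → t ≤ 1 → 0 < f t := fun t h0 h1 => lt_of_lt_of_le h0 (hf.lo t h0.le h1)
  have hm0 : 0 < m := lt_of_lt_of_le one_pos hf.m1
  have i1 : IntervalIntegrable (fun t => t / (f t + q * (1 - t))) volume 0 1 := by
    refine ibd (B := 1) ?_ ?_
    · fun_prop
    · intro t h0 h1
      have h2 := hf.lo t h0.le h1
      have h3 : 0 ≤ q * (1 - t) := mul_nonneg hq0.le (by linarith)
      rw [abs_of_nonneg (div_nonneg h0.le (by linarith)), div_le_one (by linarith)]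
      linarith
  have i2 : IntervalIntegrable (fun t => t / f t) volume 0 1 := by
    refine ibd (B := 1) ?_ ?_
    · fun_prop
    · intro t h0 h1
      have h2 := hf.lo t h0.le h1
      rw [abs_of_nonneg (div_nonneg h0.le (by linarith)), div_le_one (by linarith)]
      exact h2
  have i3 : IntervalIntegrable (fun t => (1 - t) / (f t + q * (1 - t))) volume 0 1 := by
    refine ibd (B := 1 / q) ?_ ?_
    · fun_prop
    · intro t h0 h1
      have h2 := hf.lo t h0.le h1
      have h3 : 0 ≤ q * (1 - t) := mul_nonneg hq0.le (by linarith)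
      rw [abs_of_nonneg (div_nonneg (by linarith) (by linarith)),
        div_le_div_iff₀ (by linarith) hq0]
      nlinarith
  have e1 : (∫ t in (0:ℝ)..1, t / (f t + q * (1 - t))) - (∫ t in (0:ℝ)..1, t / f t)
      + q / m * ∫ t in (0:ℝ)..1, (1 - t) / (f t + q * (1 - t)) =
      ∫ t in (0:ℝ)..1, (t / (f t + q * (1 - t)) - t / f t
        + q / m * ((1 - t) / (f t + q * (1 - t)))) := by
    rw [intervalIntegral.integral_add (i1.sub i2) (i3.const_mul _),
      intervalIntegral.integral_sub i1 i2, intervalIntegral.integral_const_mul]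
  rw [e1]
  apply abs_int_le
  intro t h0 h1
  have h2 := hf.lo t h0.le h1
  have hF : 0 < f t := hpos t h0 h1
  have h3 : 0 ≤ q * (1 - t) := mul_nonneg hq0.le (by linarith)
  have hG : 0 < f t + q * (1 - t) := by linarith
  have e2 : t / (f t + q * (1 - t)) - t / f t + q / m * ((1 - t) / (f t + q * (1 - t))) =
      q * (1 - t) / (f t + q * (1 - t)) * (1 / m - t / f t) := by
    field_simp
    ring
  rw [e2]
  have he : 0 < q / e := div_pos hq0 hf.e0
  rcases le_total t e with h | h
  · rw [hf.near t h0.le h]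
    have h4 : 1 / m - t / (m * t) = 0 := by
      field_simp
      ring
    rw [h4, mul_zero, abs_zero]
    exact he.le
  · rw [abs_mul, abs_of_nonneg (div_nonneg h3 hG.le)]
    have h4 : |1 / m - t / f t| ≤ 1 := by
      have a1 : 0 ≤ 1 / m := by positivity
      have a2 : 1 / m ≤ 1 := by
        rw [div_le_one hm0]
        exact hf.m1
      have a3 : 0 ≤ t / f t := div_nonneg h0.le hF.le
      have a4 : t / f t ≤ 1 := by
        rw [div_le_one hF]
        exact h2
      rw [abs_le]
      constructor <;> linarith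
    have h5 : q * (1 - t) / (f t + q * (1 - t)) ≤ q / e := by
      rw [div_le_div_iff₀ hG hf.e0]
      have a1 : q * (1 - t) * e ≤ q * e := by
        have : q * (1 - t) ≤ q := by nlinarith
        exact mul_le_mul_of_nonneg_right this hf.e0.le
      have a2 : q * e ≤ q * (f t + q * (1 - t)) :=
        mul_le_mul_of_nonneg_left (by linarith) hq0.le
      linarith
    calc q * (1 - t) / (f t + q * (1 - t)) * |1 / m - t / f t|
        ≤ q * (1 - t) / (f t + q * (1 - t)) * 1 :=
          mul_le_mul_of_nonneg_left h4 (div_nonneg h3 hG.le)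
      _ ≤ q / e := by rw [mul_one]; exact h5

end Pool.Agent.PVD.L.H32
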