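import Pool.Agent.PVD.StmtsL
import Pool.Agent.Helper32_PVD.AKX

/-! MP_e25c73_gt, block L, row EXI. -/

set_option autoImplicit false
open MeasureTheory

namespace Pool.Agent.PVD.L.H32

theorem exi (hREM : RemStmt) (hGIN : GinStmt) : ExiStmt := by
  intro e he0 he1
  obtain ⟨C₁, hC1, hR⟩ := hREM e he0 he1
  refine ⟨2 * C₁ ^ 2, by nlinarith, ?_⟩
  intro q sg y u1 u2 v hp hC
  have hT0 : 0 ≤ TT q := le_trans hp.q0.le hp.qT
  have hCC : C₁ ≤ 2 * C₁ ^ 2 := by nlinarith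
  have hCT : C₁ * TT q ≤ 1 / 2 := le_trans (mul_le_mul_of_nonneg_right hCC hT0) hC
  obtain ⟨hs0, -, -, hr⟩ := hR q sg y u1 u2 v hp hCT
  have hA := bas_adm he0 he1 hp.y0 hp.y1
  obtain ⟨f, hf⟩ : ∃ f, f = fm e (bas e y) := ⟨_, rfl⟩
  obtain ⟨g, hg⟩ : ∃ g, g = fm e (nuL e q sg y u1 u2) := ⟨_, rfl⟩
  obtain ⟨s, hs⟩ : ∃ s, s = ss e q sg y := ⟨_, rfl⟩
  have hfc : Continuous f := by rw [hf]; exact fm_cont e _
  have hgc : Continuous g := by rw [hg]; exact fm_cont e _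
  have hlo : ∀ t, 0 ≤ t → t ≤ 1 → t ≤ f t := by rw [hf]; exact hA.lo
  have hrc : Continuous (fun t => g t - f t) := hgc.sub hfc
  have hrho0 : 0 ≤ C₁ * TT q := mul_nonneg (by linarith) hT0
  have hr1 : ∀ t, 0 ≤ t → t ≤ 1 → |g t - f t| ≤ C₁ * TT q * f t := by
    intro t h0 h1
    rw [hf, hg]
    exact (hr t h0 h1).1
  have hr2 : ∀ t, 0 ≤ t → t ≤ 1 → |g t - f t - s * (cl e 3 t - cl e 2 t)| ≤ C₁ * q * f t := by
    intro t h0 h1
    rw [hf, hg, hs]
    exact (hr t h0 h1).2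
  have he1' : e < 1 := by linarith
  have hc0 : ∀ t, 0 ≤ t → t ≤ 1 → ∀ i : Fin 4, 0 ≤ cl e i t := fun t h0 h1 i =>
    cl_nonneg he0 he1' h0 h1 i
  have hcle : ∀ t, 0 ≤ t → t ≤ 1 → ∀ i : Fin 4, i ≠ 0 → cl e i t ≤ f t := fun t h0 h1 i hi =>
    le_trans (cl_le he0 he1' h0 i hi) (hlo t h0 h1)
  have hfm : Measurable f := hfc.measurable
  have hrm : Measurable (fun t => g t - f t) := hrc.measurable
  have hcm : ∀ i, Measurable (cl e i) := fun i => (cl_cont e i).measurable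
  -- quotients
  have hq1 : ∀ t, 0 < t → t ≤ 1 → ∀ i : Fin 4, i ≠ 0 →
      |cl e i t * (g t - f t) / f t ^ 2| ≤ C₁ * TT q := by
    intro t h0 h1 i hi
    have hF : 0 < f t := lt_of_lt_of_le h0 (hlo t h0.le h1)
    rw [abs_div, abs_mul, abs_of_nonneg (hc0 t h0.le h1 i), abs_of_pos (pow_pos hF 2),
      div_le_iff₀ (pow_pos hF 2)]
    have a1 := hcle t h0.le h1 i hi
    have a2 := hr1 t h0.le h1
    calc cl e i t * |g t - f t| ≤ f t * (C₁ * TT q * f t) :=
          mul_le_mul a1 a2 (abs_nonneg _) hF.le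
      _ = C₁ * TT q * f t ^ 2 := by ring
  have hgi : ∀ i : Fin 4, i ≠ 0 →
      |(∫ t in (0:ℝ)..1, cl e i t / (f t + (g t - f t))) - (∫ t in (0:ℝ)..1, cl e i t / f t)
        + ∫ t in (0:ℝ)..1, cl e i t * (g t - f t) / f t ^ 2| ≤ 2 * 1 * (C₁ * TT q) ^ 2 := by
    intro i hi
    refine hGIN f (fun t => g t - f t) (cl e i) (C₁ * TT q) 1 hfc hrc (cl_cont e i) hlo hrho0 hCT
      zero_le_one hr1 ?_
    intro t h0 h1
    rw [abs_of_nonneg (hc0 t h0 h1 i), one_mul]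
    exact hcle t h0 h1 i hi
  have heq : ∀ i : Fin 4, (∫ t in (0:ℝ)..1, cl e i t / (f t + (g t - f t))) =
      Hm e (nuL e q sg y u1 u2) i := by
    intro i
    unfold Hm
    rw [← hg]
    apply intervalIntegral.integral_congr
    intro t _
    show cl e i t / (f t + (g t - f t)) = cl e i t / g t
    rw [add_sub_cancel]
  constructor
  · have h1 := hgi 3 (by decide)
    have h2 : |∫ t in (0:ℝ)..1, cl e 3 t * (g t - f t) / f t ^ 2| ≤ C₁ * TT q :=
      abs_int_le fun t h0 h1 => hq1 t h0 h1 3 (by decide)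
    rw [heq 3] at h1
    have h3 : (∫ t in (0:ℝ)..1, cl e 3 t / f t) = cc e y := by
      unfold cc Hm
      rw [← hf]
    rw [h3] at h1
    have h4 : 2 * 1 * (C₁ * TT q) ^ 2 ≤ C₁ * TT q := by nlinarith
    have h5 : 2 * (C₁ * TT q) ≤ 2 * C₁ ^ 2 * TT q := by
      have : C₁ * (C₁ * TT q) ≥ 1 * (C₁ * TT q) := mul_le_mul_of_nonneg_right hC1 hrho0
      nlinarith
    rw [abs_le] at h1 h2 ⊢
    constructor <;> linarith [h1.1, h1.2, h2.1, h2.2]
  · have h1 := hgi 1 (by decide)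
    rw [heq 1] at h1
    have h3 : (∫ t in (0:ℝ)..1, cl e 1 t / f t) = aa e y := by
      unfold aa Hm
      rw [← hf]
    rw [h3] at h1
    have hD : ∀ t, 0 ≤ t → t ≤ 1 → |cl e 3 t - cl e 2 t| ≤ t := by
      intro t h0 h1
      have a1 := hc0 t h0 h1 3
      have a2 := hc0 t h0 h1 2
      have a3 := cl_le he0 he1' h0 3 (by decide)
      have a4 := cl_le he0 he1' h0 2 (by decide)
      rw [abs_le]
      constructor <;> linarith
    have i1 : IntervalIntegrable (fun t => cl e 1 t * (g t - f t) / f t ^ 2) volume 0 1 :=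
      ibd (((hcm 1).mul hrm).div (hfm.pow_const 2)) fun t h0 h1 => hq1 t h0 h1 1 (by decide)
    have i2 : IntervalIntegrable (fun t => t * (cl e 3 t - cl e 2 t) / f t ^ 2) volume 0 1 := by
      refine ibd (B := 1) ((measurable_id.mul ((hcm 3).sub (hcm 2))).div (hfm.pow_const 2)) ?_
      intro t h0 h1
      have hF : 0 < f t := lt_of_lt_of_le h0 (hlo t h0.le h1)
      have a1 := hlo t h0.le h1
      have a2 := hD t h0.le h1
      show |t * (cl e 3 t - cl e 2 t) / f t ^ 2| ≤ 1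
      rw [abs_div, abs_mul, abs_of_pos h0, abs_of_pos (pow_pos hF 2), div_le_one (pow_pos hF 2)]
      calc t * |cl e 3 t - cl e 2 t| ≤ f t * f t := mul_le_mul a1 (a2.trans a1) (abs_nonneg _) hF.le
        _ = f t ^ 2 := by ring
    have h5 : |(∫ t in (0:ℝ)..1, cl e 1 t * (g t - f t) / f t ^ 2) - s * JJ e y| ≤ C₁ * q := by
      have e1 : (∫ t in (0:ℝ)..1, cl e 1 t * (g t - f t) / f t ^ 2) - s * JJ e y =
          ∫ t in (0:ℝ)..1, (cl e 1 t * (g t - f t) / f t ^ 2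
            - s * (t * (cl e 3 t - cl e 2 t) / f t ^ 2)) := by
        rw [intervalIntegral.integral_sub i1 (i2.const_mul s), intervalIntegral.integral_const_mul]
        unfold JJ
        rw [← hf]
      rw [e1]
      apply abs_int_le
      intro t h0 h1
      have hF : 0 < f t := lt_of_lt_of_le h0 (hlo t h0.le h1)
      have e2 : cl e 1 t * (g t - f t) / f t ^ 2 - s * (t * (cl e 3 t - cl e 2 t) / f t ^ 2) =
          t * (g t - f t - s * (cl e 3 t - cl e 2 t)) / f t ^ 2 := by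
        rw [cl_one]
        ring
      rw [e2, abs_div, abs_mul, abs_of_pos h0, abs_of_pos (pow_pos hF 2),
        div_le_iff₀ (pow_pos hF 2)]
      have a1 := hlo t h0.le h1
      have a2 := hr2 t h0.le h1
      calc t * |g t - f t - s * (cl e 3 t - cl e 2 t)| ≤ f t * (C₁ * q * f t) :=
            mul_le_mul a1 a2 (abs_nonneg _) hF.le
        _ = C₁ * q * f t ^ 2 := by ring
    have h6 : C₁ * q ≤ 2 * C₁ ^ 2 * q := mul_le_mul_of_nonneg_right hCC hp.q0.le
    rw [← hs]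
    have h7 : 2 * C₁ ^ 2 * (q + TT q ^ 2) = 2 * C₁ ^ 2 * q + 2 * 1 * (C₁ * TT q) ^ 2 := by ring
    rw [h7]
    rw [abs_le] at h1 h5 ⊢
    constructor <;> linarith [h1.1, h1.2, h5.1, h5.2]

end Pool.Agent.PVD.L.H32
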