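import Pool.Agent.PVD.StmtsG

set_option autoImplicit false

open MeasureTheory Metric Set Filter Topology

namespace PVD.H32

open PV PV3 PVD

theorem abel (n : ℕ) (c : ℕ → ℝ) (h0 : c 0 = 0) (h1 : c (n + 1) = 0) (y : Fin (n + 1) → ℝ) :
    ∑ j : Fin n, c (j.1 + 1) * (y j.castSucc - y j.succ) =
      ∑ i : Fin (n + 1), (c (i.1 + 1) - c i.1) * y i := by
  have e1 : ∑ i : Fin (n + 1), c (i.1 + 1) * y i = ∑ j : Fin n, c (j.1 + 1) * y j.castSucc := by
    rw [Fin.sum_univ_castSucc]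
    simp [h1]
  have e2 : ∑ i : Fin (n + 1), c i.1 * y i = ∑ j : Fin n, c (j.1 + 1) * y j.succ := by
    rw [Fin.sum_univ_succ]
    simp [h0]
  simp only [mul_sub, sub_mul, Finset.sum_sub_distrib]
  rw [e1, e2]

theorem kap_zero (n r : ℕ) : kap n r 0 = 0 := by
  unfold kap
  simp

theorem kap_last (n r : ℕ) (hr : r ≤ n + 1) : kap n r (n + 1) = 0 := by
  unfold kap
  have : max (r : ℝ) ((n + 1 : ℕ) : ℝ) = ((n + 1 : ℕ) : ℝ) := max_eq_right (by exact_mod_cast hr)
  rw [this]
  push_cast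
  simp

theorem kap_step (n r i : ℕ) : kap n r (i + 1) - kap n r i =
    (if i < r then 1 else 0) - (r : ℝ) / ((n : ℝ) + 1) := by
  have hn : ((n : ℝ) + 1) ≠ 0 := by positivity
  unfold kap
  split_ifs with h
  · have a1 : min (r : ℝ) ((i + 1 : ℕ) : ℝ) = ((i + 1 : ℕ) : ℝ) :=
      min_eq_right (by exact_mod_cast h)
    have a2 : max (r : ℝ) ((i + 1 : ℕ) : ℝ) = r := max_eq_left (by exact_mod_cast h)
    have a3 : min (r : ℝ) (i : ℝ) = i := min_eq_right (by exact_mod_cast h.le)
    have a4 : max (r : ℝ) (i : ℝ) = r := max_eq_left (by exact_mod_cast h.le)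
    rw [a1, a2, a3, a4]
    push_cast
    field_simp
    ring
  · push Not at h
    have a1 : min (r : ℝ) ((i + 1 : ℕ) : ℝ) = r :=
      min_eq_left (by exact_mod_cast (h.trans (Nat.le_succ i)))
    have a2 : max (r : ℝ) ((i + 1 : ℕ) : ℝ) = ((i + 1 : ℕ) : ℝ) :=
      max_eq_right (by exact_mod_cast (h.trans (Nat.le_succ i)))
    have a3 : min (r : ℝ) (i : ℝ) = r := min_eq_left (by exact_mod_cast h)
    have a4 : max (r : ℝ) (i : ℝ) = i := max_eq_right (by exact_mod_cast h)
    rw [a1, a2, a3, a4]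
    push_cast
    field_simp
    ring

theorem kap_nn (n j : ℕ) (hj : j ≤ n) : kap n n j = (j : ℝ) / ((n : ℝ) + 1) := by
  unfold kap
  have a3 : min (n : ℝ) (j : ℝ) = j := min_eq_right (by exact_mod_cast hj)
  have a4 : max (n : ℝ) (j : ℝ) = n := max_eq_left (by exact_mod_cast hj)
  rw [a3, a4]
  simp

theorem kap' : KAPStmt := by
  intro n hn
  have hn0 : (0 : ℝ) < (n : ℝ) + 1 := by positivity
  refine ⟨?_, ?_, ?_, ?_⟩
  · intro j h1 h2
    rw [kap_nn n j h2]
    unfold kap
    have a3 : min ((1 : ℕ) : ℝ) (j : ℝ) = 1 := by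
      rw [min_eq_left (by exact_mod_cast h1)]; simp
    have a4 : max ((1 : ℕ) : ℝ) (j : ℝ) = j := max_eq_right (by exact_mod_cast h1)
    rw [a3, a4, ← mul_div_assoc]
    apply div_le_div_of_nonneg_right _ hn0.le
    have hj : (1 : ℝ) ≤ j := by exact_mod_cast h1
    nlinarith
  · intro k hk1 hk2 j h1 h2
    rw [kap_nn n j h2]
    unfold kap
    rw [← mul_div_assoc]
    apply div_le_div_of_nonneg_right _ hn0.le
    obtain ⟨r, hr⟩ : ∃ r, n + 1 - k = r := ⟨_, rfl⟩
    rw [hr]
    have hrk : r + k = n + 1 := by omega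
    have hrk' : (n : ℝ) + 1 = r + k := by exact_mod_cast hrk.symm
    rw [hrk']
    rcases le_total j r with hjr | hjr
    · have a3 : min (r : ℝ) (j : ℝ) = j := min_eq_right (by exact_mod_cast hjr)
      have a4 : max (r : ℝ) (j : ℝ) = r := max_eq_left (by exact_mod_cast hjr)
      rw [a3, a4]
      apply le_of_eq
      ring
    · have a3 : min (r : ℝ) (j : ℝ) = r := min_eq_left (by exact_mod_cast hjr)
      have a4 : max (r : ℝ) (j : ℝ) = j := max_eq_right (by exact_mod_cast hjr)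
      rw [a3, a4]
      have hjr' : (r : ℝ) ≤ j := by exact_mod_cast hjr
      have hr0 : (0 : ℝ) ≤ r := by positivity
      have hk0 : (0 : ℝ) ≤ k := by positivity
      nlinarith
  · intro r j hr1 hr2 h1 h2
    unfold kap
    have hr : (1 : ℝ) ≤ r := by exact_mod_cast hr1
    have hj : (1 : ℝ) ≤ j := by exact_mod_cast h1
    have hr' : (r : ℝ) ≤ n := by exact_mod_cast hr2
    have hj' : (j : ℝ) ≤ n := by exact_mod_cast h2
    have a1 : 0 < min (r : ℝ) (j : ℝ) := lt_min (by linarith) (by linarith)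
    have a2 : 0 < (n : ℝ) + 1 - max (r : ℝ) (j : ℝ) := by
      have : max (r : ℝ) (j : ℝ) ≤ n := max_le hr' hj'
      linarith
    positivity
  · intro r y hr1 hr2 hy
    rw [abel n (kap n r) (kap_zero n r) (kap_last n r (by omega)) y]
    have : ∀ i : Fin (n + 1), (kap n r (i.1 + 1) - kap n r i.1) * y i
        = (if i.1 < r then y i else 0) - (r : ℝ) / ((n : ℝ) + 1) * y i := by
      intro i
      rw [kap_step]
      split_ifs <;> ring
    simp only [this]
    rw [Finset.sum_sub_distrib, ← Finset.mul_sum, hy]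
    ring

end PVD.H32
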