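import Pool.Agent.PVD.StmtsG

set_option autoImplicit false

open MeasureTheory Metric Set Filter Topology

namespace PVD.H32

open PV PV3 PVD

theorem ch_erase (n : ℕ) (R : Finset ℕ) (H : ℕ → ℝ) (r : ℕ) (κ : ℝ)
    (hrn : r ≠ n) (hn : n ∈ R) (hk : ∀ j, 1 ≤ j → j ≤ n → kap n r j ≤ κ * kap n n j)
    (hH : κ * H n < H r) (hκ : 0 ≤ κ) : Ch n R H = Ch n (R.erase r) H := by
  ext d
  constructor
  · rintro ⟨h0, h1⟩
    exact ⟨h0, fun s hs => h1 s (Finset.mem_of_mem_erase hs)⟩
  · rintro ⟨h0, h1⟩
    refine ⟨h0, fun s hs => ?_⟩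
    by_cases hsr : s = r
    · subst hsr
      have hn' : n ∈ R.erase s := Finset.mem_erase.2 ⟨fun h => hrn h.symm, hn⟩
      have h2 := h1 n hn'
      have h3 : ∑ j : Fin n, kap n s (j.1 + 1) * d j
          ≤ ∑ j : Fin n, κ * (kap n n (j.1 + 1) * d j) := by
        apply Finset.sum_le_sum
        intro j _
        have := mul_le_mul_of_nonneg_right (hk (j.1 + 1) (by omega) (by omega)) (h0 j)
        linarith [this]
      rw [← Finset.mul_sum] at h3
      have h4 := mul_le_mul_of_nonneg_left h2 hκ
      linarith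
    · exact h1 s (Finset.mem_erase.2 ⟨hsr, hs⟩)

theorem ch_congr (n : ℕ) (R : Finset ℕ) (H H' : ℕ → ℝ) (h : ∀ r ∈ R, H r = H' r) :
    Ch n R H = Ch n R H' := by
  ext d
  constructor
  · rintro ⟨h0, h1⟩
    exact ⟨h0, fun s hs => by rw [← h s hs]; exact h1 s hs⟩
  · rintro ⟨h0, h1⟩
    exact ⟨h0, fun s hs => by rw [h s hs]; exact h1 s hs⟩

theorem win : WINStmt := by
  intro n R H r κ _hRO _hr hrn hn hk hH hκ
  have hkey : ∀ H' : ℕ → ℝ, κ * H' n < H' r → W n R H' = W n (R.erase r) H' := by
    intro H' h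
    unfold W
    rw [ch_erase n R H' r κ hrn hn hk h hκ]
  have hev : ∀ s : ℕ, ∀ᶠ t in 𝓝 (H s),
      κ * (Function.update H s t) n < (Function.update H s t) r := by
    intro s
    have hc0 : Continuous fun t : ℝ => Function.update H s t :=
      continuous_const.update s continuous_id
    have hc : ∀ m : ℕ, Continuous fun t : ℝ => Function.update H s t m := fun m =>
      (continuous_apply m).comp hc0
    have hc1 : ContinuousAt (fun t : ℝ => κ * Function.update H s t n) (H s) :=
      (continuous_const.mul (hc n)).continuousAt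
    have hc2 : ContinuousAt (fun t : ℝ => Function.update H s t r) (H s) :=
      (hc r).continuousAt
    apply hc1.eventually_lt hc2
    simpa [Function.update_eq_self] using hH
  refine ⟨hkey H hH, ?_, ?_⟩
  · unfold dW
    have h1 : (fun t : ℝ => W n R (Function.update H r t)) =ᶠ[𝓝 (H r)]
        (fun _ : ℝ => W n (R.erase r) H) := by
      filter_upwards [hev r] with t ht
      rw [hkey _ ht]
      unfold W
      rw [ch_congr n (R.erase r) (Function.update H r t) H]
      intro s hs
      exact Function.update_of_ne (Finset.ne_of_mem_erase hs) _ _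
    rw [h1.deriv_eq]
    simp
  · intro r' _hr'
    unfold dW
    apply Filter.EventuallyEq.deriv_eq
    filter_upwards [hev r'] with t ht
    exact hkey _ ht

end PVD.H32
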